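import Pool.Agent.Helper3.BO.Exist
import Pool.Agent.Helper3.BO.Pde
import Pool.Agent.Helper3.BO.Uniq

/-!
Global well-posedness of the Benjamin-Ono equation `u_t + H u_xx + u u_x = 0` for small
quasi-periodic analytic data with Diophantine frequency vector (affirmative answer to Q1).
-/

open scoped Topology ComplexConjugate
open Filter Set

namespace Pool.Agent.Results.MP_4aaa2c_an.GlobalWellPosedness

variable {ν : ℕ}

/-- `|n| = ∑ⱼ |nⱼ|`, the `ℓ¹` norm on `ℤ^ν`. -/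
def absv (n : Fin ν → ℤ) : ℕ := ∑ j, (n j).natAbs

/-- `n · ω`. -/
def dot (n : Fin ν → ℤ) (ω : Fin ν → ℝ) : ℝ := ∑ j, (n j : ℝ) * ω j

/-- `ω` is `(a₀, b₀)`-Diophantine: `|n·ω| ≥ a₀ |n|^{-b₀}` for all `n ≠ 0`. -/
def Diophantine (a₀ b₀ : ℝ) (ω : Fin ν → ℝ) : Prop :=
  ∀ n : Fin ν → ℤ, n ≠ 0 → a₀ * (absv n : ℝ) ^ (-b₀) ≤ |dot n ω|

/-- The quasi-periodic series `∑ₙ c(n) e^{i (n·ω) x}`. -/
noncomputable def qp (ω : Fin ν → ℝ) (c : (Fin ν → ℤ) → ℂ) (x : ℝ) : ℂ :=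
  ∑' n, c n * Complex.exp (Complex.I * (dot n ω : ℂ) * (x : ℂ))

/-- `g = H f` for absolutely convergent quasi-periodic series: `H` multiplies
`e^{i ξ x}` by `-i sgn ξ`. -/
def IsHilbert (ω : Fin ν → ℝ) (f g : ℝ → ℂ) : Prop :=
  ∃ d : (Fin ν → ℤ) → ℂ, (Summable fun n => ‖d n‖) ∧ (∀ x, f x = qp ω d x) ∧
    ∀ x, g x = qp ω (fun n => -Complex.I * ((SignType.sign (dot n ω) : ℝ) : ℂ) * d n) x

/-- `u` solves the Benjamin-Ono equation `u_t + H u_xx + u u_x = 0` pointwise for all `t ≥ 0`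
and `x ∈ ℝ` (the time derivative at `t = 0` is one-sided). -/
def SolvesBO (ω : Fin ν → ℝ) (u : ℝ → ℝ → ℂ) : Prop :=
  ∀ t, 0 ≤ t → Differentiable ℝ (u t) ∧ Differentiable ℝ (deriv (u t)) ∧
    ∃ g : ℝ → ℂ, IsHilbert ω (deriv (deriv (u t))) g ∧
      ∀ x, HasDerivWithinAt (fun s => u s x) (-(g x) - u t x * deriv (u t) x) (Ici 0) t

/-! ### Auxiliary facts -/

lemma summ_n {ν : ℕ} {σ : ℝ} (hσ : 0 < σ) : Summable fun n : Fin ν → ℤ => Real.exp (-(σ * BO.nrm n)) :=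
  BO.summ_nrm hσ ν

/-- the modes on `ℤ^ν` -/
noncomputable def MM (ω : Fin ν → ℝ) : BO.Modes (Fin ν → ℤ) where
  ℓ := BO.nrm
  neg := BO.nrm_neg
  add_le := BO.nrm_add_le
  ξ := fun n => BO.dot n ω
  ξ_neg := fun n => BO.dot_neg n ω
  Ω := BO.Wsum ω
  Ω0 := by unfold BO.Wsum; positivity
  hξ := by
    intro n
    have := BO.abs_dot_le n ω (C := BO.Wsum ω) (fun j =>
      Finset.single_le_sum (f := fun j => |ω j|) (fun _ _ => abs_nonneg _) (Finset.mem_univ j))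
    linarith
  summ := fun _ hσ => BO.summ_nrm hσ ν

lemma qp_eq (ω : Fin ν → ℝ) (c : (Fin ν → ℤ) → ℂ) (x : ℝ) : qp ω c x = BO.qpf (MM ω).ξ c x := rfl

lemma dioph_nat {a₀ b₀ : ℝ} (ha₀ : 0 < a₀) {ω : Fin ν → ℝ} (hω : Diophantine a₀ b₀ ω) :
    ∀ n : Fin ν → ℤ, n ≠ 0 → a₀ ≤ |BO.dot n ω| * (BO.nrm n : ℝ) ^ ⌈b₀⌉₊ := by
  intro n hn
  have h1 := hω n hn
  have h2 : (1 : ℝ) ≤ (absv n : ℝ) := by exact_mod_cast BO.nrm_pos hn
  have h3 : (0 : ℝ) < (absv n : ℝ) := by linarith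
  have h4 : (absv n : ℝ) ^ b₀ ≤ (absv n : ℝ) ^ (⌈b₀⌉₊ : ℝ) :=
    Real.rpow_le_rpow_of_exponent_le h2 (Nat.le_ceil b₀)
  rw [Real.rpow_natCast] at h4
  have h5 : (absv n : ℝ) ^ (-b₀) * (absv n : ℝ) ^ b₀ = 1 := by
    rw [← Real.rpow_add h3]; simp
  calc a₀ = a₀ * ((absv n : ℝ) ^ (-b₀) * (absv n : ℝ) ^ b₀) := by rw [h5, mul_one]
    _ = (a₀ * (absv n : ℝ) ^ (-b₀)) * (absv n : ℝ) ^ b₀ := by ring
    _ ≤ |dot n ω| * (absv n : ℝ) ^ b₀ := by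
        have : 0 ≤ (absv n : ℝ) ^ b₀ := Real.rpow_nonneg h3.le _
        gcongr
    _ ≤ |dot n ω| * (absv n : ℝ) ^ ⌈b₀⌉₊ := by gcongr

lemma dot_inj {a₀ b₀ : ℝ} (ha₀ : 0 < a₀) {ω : Fin ν → ℝ} (hω : Diophantine a₀ b₀ ω) :
    Function.Injective (MM ω).ξ := by
  intro n m h
  by_contra hne
  have h1 := dioph_nat ha₀ hω (n - m) (sub_ne_zero.mpr hne)
  have h2 : BO.dot (n - m) ω = 0 := by
    rw [BO.dot_sub]; exact sub_eq_zero.mpr h
  rw [h2] at h1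
  simp at h1
  linarith

lemma ξ_sub (ω : Fin ν → ℝ) (n m : Fin ν → ℤ) : (MM ω).ξ (n - m) = (MM ω).ξ n - (MM ω).ξ m :=
  BO.dot_sub n m ω

section dec

variable {ω : Fin ν → ℝ} {σ A : ℝ} (hσ : 0 < σ) (hA : 0 ≤ A) {c : (Fin ν → ℤ) → ℂ}
  (hc : ∀ n, ‖c n‖ ≤ A * Real.exp (-(σ * (MM ω).ℓ n)))

include hσ hA hc

lemma qp_deriv (x : ℝ) : HasDerivAt (qp ω c) (qp ω (BO.dxc (MM ω).ξ c) x) x := by
  have h := BO.qpf_hasDeriv (MM ω).ξ ((MM ω).summ_of_dec hσ hc)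
    ((MM ω).summ_of_dec (by positivity) ((MM ω).dxc_dec hσ hA hc)) x
  exact h

lemma deriv_qp : deriv (qp ω c) = qp ω (BO.dxc (MM ω).ξ c) := by
  funext x
  exact (qp_deriv hσ hA hc x).deriv

end dec

/-- for exponentially decaying coefficients, the equation in terms of coefficients -/
lemma solves_iff {a₀ b₀ : ℝ} (ha₀ : 0 < a₀) {ω : Fin ν → ℝ} (hω : Diophantine a₀ b₀ ω) {σ A : ℝ} (hσ : 0 < σ)
    (hA : 0 ≤ A) {C : ℝ → (Fin ν → ℤ) → ℂ}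
    (hC : ∀ t, 0 ≤ t → ∀ n, ‖C t n‖ ≤ A * Real.exp (-(σ * (MM ω).ℓ n))) :
    SolvesBO ω (fun t => qp ω (C t)) ↔
      ∀ t, 0 ≤ t → ∀ x, HasDerivWithinAt (fun s => BO.qpf (MM ω).ξ (C s) x)
        (BO.qpf (MM ω).ξ (BO.boc (MM ω).ξ (C t)) x) (Ici 0) t := by
  have hΩ := (MM ω).Ω0
  have hinj := dot_inj ha₀ hω
  have key : ∀ t, 0 ≤ t → ∀ x,
      -(qp ω (BO.hbc (MM ω).ξ (BO.dxc (MM ω).ξ (BO.dxc (MM ω).ξ (C t)))) x)
        - qp ω (C t) x * qp ω (BO.dxc (MM ω).ξ (C t)) x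
        = BO.qpf (MM ω).ξ (BO.boc (MM ω).ξ (C t)) x := fun t ht x =>
    (MM ω).rhs_eq (ξ_sub ω) hσ hA (hC t ht) x
  have d1 : ∀ t, 0 ≤ t → deriv (qp ω (C t)) = qp ω (BO.dxc (MM ω).ξ (C t)) := fun t ht =>
    deriv_qp hσ hA (hC t ht)
  have b1 : ∀ t, 0 ≤ t → ∀ n, ‖BO.dxc (MM ω).ξ (C t) n‖ ≤ ((MM ω).Ω * A * (2 / σ)) *
      Real.exp (-(σ / 2 * (MM ω).ℓ n)) := fun t ht => (MM ω).dxc_dec hσ hA (hC t ht)
  have d2 : ∀ t, 0 ≤ t → deriv (qp ω (BO.dxc (MM ω).ξ (C t)))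
      = qp ω (BO.dxc (MM ω).ξ (BO.dxc (MM ω).ξ (C t))) := fun t ht =>
    deriv_qp (by positivity) (by positivity) (b1 t ht)
  have b2 : ∀ t, 0 ≤ t → Summable fun n => ‖BO.dxc (MM ω).ξ (BO.dxc (MM ω).ξ (C t)) n‖ := fun t ht =>
    (MM ω).summ_of_dec (by positivity) ((MM ω).dxc_dec (by positivity) (by positivity) (b1 t ht))
  constructor
  · intro h t ht x
    obtain ⟨-, -, g, ⟨d, hd, hfd, hgd⟩, h3⟩ := h t ht
    have h4 := h3 x
    simp only at hfd h4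
    rw [d1 t ht, d2 t ht] at hfd
    have h5 : BO.dxc (MM ω).ξ (BO.dxc (MM ω).ξ (C t)) = d := BO.coeff_unique hinj (b2 t ht) hd hfd
    rw [← key t ht x]
    rw [d1 t ht, hgd x, ← h5] at h4
    exact h4
  · intro h t ht
    refine ⟨?_, ?_, fun x => qp ω (BO.hbc (MM ω).ξ (BO.dxc (MM ω).ξ (BO.dxc (MM ω).ξ (C t)))) x,
      ⟨BO.dxc (MM ω).ξ (BO.dxc (MM ω).ξ (C t)), b2 t ht, ?_, fun x => rfl⟩, ?_⟩
    · intro x
      exact (qp_deriv hσ hA (hC t ht) x).differentiableAt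
    · simp only
      rw [d1 t ht]
      intro x
      exact (qp_deriv (by positivity) (by positivity) (b1 t ht) x).differentiableAt
    · intro x
      simp only
      rw [d1 t ht, d2 t ht]
    · intro x
      simp only
      rw [d1 t ht, key t ht x]
      exact h t ht x

lemma real_coeff {a₀ b₀ : ℝ} (ha₀ : 0 < a₀) {ω : Fin ν → ℝ} (hω : Diophantine a₀ b₀ ω) {c : (Fin ν → ℤ) → ℂ}
    (hc : Summable fun n => ‖c n‖) : (∀ x, (qp ω c x).im = 0) ↔ ∀ n, c (-n) = conj (c n) := by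
  have hconj : ∀ x, conj (qp ω c x) = qp ω (fun n => conj (c (-n))) x := by
    intro x
    unfold qp
    rw [Complex.conj_tsum, ← (Equiv.neg (Fin ν → ℤ)).tsum_eq]
    congr 1; funext n
    simp only [Equiv.neg_apply]
    rw [map_mul, ← Complex.exp_conj]
    congr 2
    rw [map_mul, map_mul, Complex.conj_I, Complex.conj_ofReal, Complex.conj_ofReal]
    have : dot (-n) ω = - dot n ω := BO.dot_neg n ω
    rw [this]; push_cast; ring
  constructor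
  · intro h n
    have h1 : ∀ x, BO.qpf (MM ω).ξ c x = BO.qpf (MM ω).ξ (fun n => conj (c (-n))) x := by
      intro x
      have h2 := hconj x
      rw [Complex.conj_eq_iff_im.mpr (h x)] at h2
      exact h2
    have hc' : Summable fun n => ‖conj (c (-n))‖ := by
      simp only [RCLike.norm_conj]
      exact (Equiv.neg (Fin ν → ℤ)).summable_iff.mpr hc
    have h3 := BO.coeff_unique (dot_inj ha₀ hω) hc hc' h1
    have h4 := congrFun h3 (-n)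
    simp only [neg_neg] at h4
    exact h4
  · intro h x
    rw [← Complex.conj_eq_iff_im, hconj x]
    congr 1
    funext n
    rw [h n, Complex.conj_conj]

/-- The transformation `v = -½ conj c`. -/
lemma ode_transfer {ω : Fin ν → ℝ} {C : ℝ → (Fin ν → ℤ) → ℂ}
    (h : ∀ t, 0 ≤ t → ∀ n, HasDerivWithinAt (fun s => C s n) (BO.boc (MM ω).ξ (C t) n) (Ici 0) t) :
    ∀ t, 0 ≤ t → ∀ n, HasDerivWithinAt (fun s => -(1 / 2 : ℂ) * conj (C s n))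
      (BO.NL (MM ω).ξ (fun n => -(1 / 2 : ℂ) * conj (C t n)) n) (Ici 0) t := by
  intro t ht n
  rw [BO.boc_NL]
  have h1 : HasDerivWithinAt (fun s => conj (C s n)) (conj (BO.boc (MM ω).ξ (C t) n)) (Ici 0) t :=
    (Complex.conjCLE.toContinuousLinearMap.hasFDerivAt).comp_hasDerivWithinAt t (h t ht n)
  exact h1.const_mul _

theorem fixed_nu (ν : ℕ) (a₀ b₀ ρ₀ : ℝ) (ha₀ : 0 < a₀) (hρ₀ : 0 < ρ₀) :
    ∃ ε₀ > 0, ∀ ε, 0 < ε → ε ≤ ε₀ → ∀ ω : Fin ν → ℝ, Diophantine a₀ b₀ ω →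
      ∀ c : (Fin ν → ℤ) → ℂ, (∀ n, ‖c n‖ ≤ ε * Real.exp (-(ρ₀ * absv n))) → (∀ x, (qp ω c x).im = 0) →
      ∃ C : ℝ → (Fin ν → ℤ) → ℂ, C 0 = c ∧
        (∀ t, 0 ≤ t → ∀ n, ‖C t n‖ ≤ ε ^ (1 / 4 : ℝ) * Real.exp (-(ρ₀ * absv n / 8))) ∧
        (∀ t, 0 ≤ t → ∀ x, (qp ω (C t) x).im = 0) ∧
        SolvesBO ω (fun t => qp ω (C t)) ∧
        ∀ D : ℝ → (Fin ν → ℤ) → ℂ,
          (∃ ρ > 0, ∃ B, ∀ t, 0 ≤ t → ∀ n, ‖D t n‖ ≤ B * Real.exp (-(ρ * absv n))) →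
          SolvesBO ω (fun t => qp ω (D t)) → (∀ x, qp ω (D 0) x = qp ω c x) →
          ∀ t, 0 ≤ t → ∀ x, qp ω (D t) x = qp ω (C t) x := by
  obtain ⟨ε0, hε0, K, hK, hmain⟩ := BO.exist_NL ν ha₀ hρ₀ ⌈b₀⌉₊
  refine ⟨min ε0 ((1 / (2 * K + 1)) ^ 4), lt_min hε0 (by positivity), ?_⟩
  intro ε hε hεle ω hω c hc hreal
  have hε1 : ε ≤ ε0 := hεle.trans (min_le_left _ _)
  have hε2 : ε ≤ (1 / (2 * K + 1)) ^ 4 := hεle.trans (min_le_right _ _)
  have hω' := dioph_nat ha₀ hω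
  have hinj := dot_inj ha₀ hω
  have hcs : Summable fun n => ‖c n‖ :=
    Summable.of_nonneg_of_le (fun _ => norm_nonneg _) hc ((summ_n hρ₀).mul_left ε)
  have hcr := (real_coeff ha₀ hω hcs).mp hreal
  have hhalf : ‖(1 / 2 : ℂ)‖ = 1 / 2 := by norm_num
  obtain ⟨V, hV0, hV1, hV2, hV3⟩ := hmain ε hε hε1 ω hω' (fun n => -(1 / 2 : ℂ) * conj (c n))
    (by
      intro n
      rw [norm_mul, RCLike.norm_conj, norm_neg, hhalf]
      have h1 := hc n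
      have h2 := norm_nonneg (c n)
      have h3 : ε * Real.exp (-(ρ₀ * absv n)) = ε * Real.exp (-(ρ₀ * BO.nrm n)) := rfl
      linarith)
    (by
      intro n
      rw [hcr n, map_mul]
      have h2 : conj (-(1 / 2 : ℂ)) = -(1 / 2 : ℂ) := by
        rw [map_neg, map_div₀, map_one, Complex.conj_ofNat]
      rw [h2])
  set C : ℝ → (Fin ν → ℤ) → ℂ := fun t n => -2 * conj (V t n) with hCdef
  have hVC : ∀ t, (fun n => -(1 / 2 : ℂ) * conj (C t n)) = V t := by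
    intro t; funext n
    simp only [hCdef]
    rw [map_mul, Complex.conj_conj]
    have h2 : conj (-2 : ℂ) = -2 := by rw [map_neg, Complex.conj_ofNat]
    rw [h2]; ring
  have hC0 : C 0 = c := by
    funext n
    simp only [hCdef, hV0]
    rw [map_mul, Complex.conj_conj]
    have h2 : conj (-(1 / 2 : ℂ)) = -(1 / 2 : ℂ) := by
      rw [map_neg, map_div₀, map_one, Complex.conj_ofNat]
    rw [h2]; ring
  have hC1 : ∀ t, 0 ≤ t → ∀ n, ‖C t n‖ ≤ 2 * K * ε * Real.exp (-(ρ₀ / 4 * (MM ω).ℓ n)) := by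
    intro t ht n
    simp only [hCdef]
    rw [norm_mul, RCLike.norm_conj]
    have h2 : ‖(-2 : ℂ)‖ = 2 := by norm_num
    rw [h2]
    have h3 := hV1 t ht n
    have h4 : K * ε * Real.exp (-(ρ₀ / 4 * BO.nrm n)) = K * ε * Real.exp (-(ρ₀ / 4 * (MM ω).ℓ n)) := rfl
    linarith
  have hCA : 0 ≤ 2 * K * ε := by positivity
  have hCode : ∀ t, 0 ≤ t → ∀ n, HasDerivWithinAt (fun s => C s n) (BO.boc (MM ω).ξ (C t) n) (Ici 0) t := by
    intro t ht n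
    have h1 : HasDerivWithinAt (fun s => conj (V s n)) (conj (BO.NL (MM ω).ξ (V t) n)) (Ici 0) t :=
      (Complex.conjCLE.toContinuousLinearMap.hasFDerivAt).comp_hasDerivWithinAt t (hV3 t ht n)
    have h2 := h1.const_mul (-2 : ℂ)
    refine h2.congr_deriv ?_
    rw [← hVC t, BO.boc_NL, map_mul, Complex.conj_conj]
    have h3 : conj (-(1 / 2 : ℂ)) = -(1 / 2 : ℂ) := by
      rw [map_neg, map_div₀, map_one, Complex.conj_ofNat]
    rw [h3]; ring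
  have hCsum : ∀ t, 0 ≤ t → Summable fun n => ‖C t n‖ := fun t ht => (MM ω).summ_of_dec (by positivity) (hC1 t ht)
  have hpde : ∀ t, 0 ≤ t → ∀ x, HasDerivWithinAt (fun s => BO.qpf (MM ω).ξ (C s) x)
      (BO.qpf (MM ω).ξ (BO.boc (MM ω).ξ (C t)) x) (Ici 0) t := fun t ht x =>
    (MM ω).pde_of_ode (by positivity) hCA hC1 hCode ht x
  refine ⟨C, hC0, ?_, ?_, (solves_iff ha₀ hω (by positivity) hCA hC1).mpr hpde, ?_⟩
  · intro t ht n
    set δ : ℝ := ε ^ (1 / 4 : ℝ) with hδ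
    have hδ0 : 0 < δ := Real.rpow_pos_of_pos hε _
    have hδ4 : δ ^ 4 = ε := by
      rw [hδ, ← Real.rpow_natCast, ← Real.rpow_mul hε.le]; norm_num
    have hδ1 : δ ≤ 1 / (2 * K + 1) := by
      have h1 : δ ^ 4 ≤ (1 / (2 * K + 1)) ^ 4 := by rw [hδ4]; exact hε2
      exact le_of_pow_le_pow_left₀ (by norm_num) (by positivity) h1
    have h2 : 2 * K * ε ≤ δ := by
      rw [← hδ4]
      rw [le_div_iff₀ (by positivity)] at hδ1
      have h3 : δ ≤ 1 := by nlinarith [mul_nonneg hδ0.le hK]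
      have h4 : 2 * K * δ ≤ 1 := by nlinarith
      have h5 : δ ^ 3 ≤ δ := by nlinarith [mul_pos hδ0 hδ0]
      calc 2 * K * δ ^ 4 = (2 * K * δ) * δ ^ 3 := by ring
        _ ≤ 1 * δ := by gcongr
        _ = δ := one_mul _
    refine (hC1 t ht n).trans ?_
    gcongr
    have h6 : (MM ω).ℓ n = absv n := rfl
    rw [h6]
    have h7 : (0 : ℝ) ≤ ρ₀ * absv n := by positivity
    linarith
  · intro t ht
    rw [real_coeff ha₀ hω (hCsum t ht)]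
    intro n
    simp only [hCdef]
    rw [hV2 t ht n, map_mul]
    have h2 : conj (-2 : ℂ) = -2 := by rw [map_neg, Complex.conj_ofNat]
    rw [h2]
  · rintro D ⟨ρ, hρ, B, hB⟩ hD hD0 t ht x
    -- common bounds
    set σ : ℝ := min ρ (ρ₀ / 4) with hσ
    have hσ0 : 0 < σ := lt_min hρ (by positivity)
    set A : ℝ := max |B| (2 * K * ε) with hA
    have hA0 : 0 ≤ A := (abs_nonneg B).trans (le_max_left _ _)
    have hDb : ∀ t, 0 ≤ t → ∀ n, ‖D t n‖ ≤ A * Real.exp (-(σ * (MM ω).ℓ n)) := by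
      intro t ht n
      refine (hB t ht n).trans ?_
      have h6 : (MM ω).ℓ n = absv n := rfl
      rw [h6]
      have h7 : B ≤ A := (le_abs_self B).trans (le_max_left _ _)
      have h8 : Real.exp (-(ρ * absv n)) ≤ Real.exp (-(σ * absv n)) := by
        apply Real.exp_le_exp.mpr
        have : σ ≤ ρ := min_le_left _ _
        have := mul_le_mul_of_nonneg_right this (by positivity : (0 : ℝ) ≤ absv n)
        linarith
      calc B * Real.exp (-(ρ * absv n)) ≤ A * Real.exp (-(ρ * absv n)) := by gcongr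
        _ ≤ _ := by gcongr
    have hCb : ∀ t, 0 ≤ t → ∀ n, ‖C t n‖ ≤ A * Real.exp (-(σ * (MM ω).ℓ n)) := by
      intro t ht n
      refine (hC1 t ht n).trans ?_
      have h7 : 2 * K * ε ≤ A := le_max_right _ _
      have h8 : Real.exp (-(ρ₀ / 4 * (MM ω).ℓ n)) ≤ Real.exp (-(σ * (MM ω).ℓ n)) := by
        apply Real.exp_le_exp.mpr
        have : σ ≤ ρ₀ / 4 := min_le_right _ _
        have := mul_le_mul_of_nonneg_right this (by positivity : (0 : ℝ) ≤ (MM ω).ℓ n)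
        linarith
      gcongr
    have hDpde := (solves_iff ha₀ hω hσ0 hA0 hDb).mp hD
    have hDode : ∀ t, 0 ≤ t → ∀ n, HasDerivWithinAt (fun s => D s n) (BO.boc (MM ω).ξ (D t) n) (Ici 0) t :=
      fun t ht n => (MM ω).ode_of_pde hinj hσ0 hA0 hDb hDpde ht n
    have hD0' : D 0 = c := by
      apply BO.coeff_unique hinj ((MM ω).summ_of_dec hσ0 (hDb 0 le_rfl)) hcs
      exact hD0
    have hbound : ∀ (E : ℝ → (Fin ν → ℤ) → ℂ), (∀ t, 0 ≤ t → ∀ n, ‖E t n‖ ≤ A * Real.exp (-(σ * (MM ω).ℓ n))) →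
        ∀ t, 0 ≤ t → ∀ n, ‖-(1 / 2 : ℂ) * conj (E t n)‖ ≤ A * Real.exp (-(σ * (MM ω).ℓ n)) := by
      intro E hE t ht n
      rw [norm_mul, RCLike.norm_conj, norm_neg, hhalf]
      have := hE t ht n
      have := norm_nonneg (E t n)
      linarith
    have huniq := (MM ω).uniq hσ0 hA0 (ode_transfer hDode) (ode_transfer hCode) (hbound D hDb) (hbound C hCb)
      (by rw [hD0', hC0]) t ht
    have hDC : D t = C t := by
      funext n
      have h1 : -(1 / 2 : ℂ) * conj (D t n) = -(1 / 2 : ℂ) * conj (C t n) := congrFun huniq n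
      have h2 : conj (D t n) = conj (C t n) := by
        have h3 : (-(1 / 2 : ℂ)) ≠ 0 := by norm_num
        exact mul_left_cancel₀ h3 h1
      exact (starRingEnd ℂ).injective h2
    rw [hDC]

/-- **Global well-posedness of Benjamin-Ono with small quasi-periodic analytic data.**
For all `a₀ ∈ (0,1)`, `b₀`, `ρ₀ > 0` there is `ε₀ > 0` such that for all `ε ∈ (0, ε₀]`, all `ν ≥ 1`
with `ν - 1 < b₀`, all `(a₀,b₀)`-Diophantine `ω ∈ ℝ^ν` and all real data with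
`|c(n)| ≤ ε e^{-ρ₀|n|}`: (i) there is a global solution with `|c(t,n)| ≤ ε^{1/4} e^{-ρ₀|n|/8}`;
(ii) it is unique among solutions with uniformly exponentially decaying coefficients. -/
theorem result (a₀ b₀ ρ₀ : ℝ) (ha₀ : 0 < a₀) (_ : a₀ < 1) (hρ₀ : 0 < ρ₀) :
    ∃ ε₀ > 0, ∀ ε, 0 < ε → ε ≤ ε₀ → ∀ ν : ℕ, 1 ≤ ν → (ν : ℝ) - 1 < b₀ →
      ∀ ω : Fin ν → ℝ, Diophantine a₀ b₀ ω →
      ∀ c : (Fin ν → ℤ) → ℂ, (∀ n, ‖c n‖ ≤ ε * Real.exp (-(ρ₀ * absv n))) → (∀ x, (qp ω c x).im = 0) →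
      ∃ C : ℝ → (Fin ν → ℤ) → ℂ, C 0 = c ∧
        (∀ t, 0 ≤ t → ∀ n, ‖C t n‖ ≤ ε ^ (1 / 4 : ℝ) * Real.exp (-(ρ₀ * absv n / 8))) ∧
        (∀ t, 0 ≤ t → ∀ x, (qp ω (C t) x).im = 0) ∧
        SolvesBO ω (fun t => qp ω (C t)) ∧
        ∀ D : ℝ → (Fin ν → ℤ) → ℂ,
          (∃ ρ > 0, ∃ B, ∀ t, 0 ≤ t → ∀ n, ‖D t n‖ ≤ B * Real.exp (-(ρ * absv n))) →
          SolvesBO ω (fun t => qp ω (D t)) → (∀ x, qp ω (D 0) x = qp ω c x) →
          ∀ t, 0 ≤ t → ∀ x, qp ω (D t) x = qp ω (C t) x := by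
  have h := fun ν : ℕ => fixed_nu ν a₀ b₀ ρ₀ ha₀ hρ₀
  choose e he hmain using h
  set m : ℕ := ⌈b₀⌉₊ + 1 with hm
  have hne : (Finset.range (m + 1)).Nonempty := ⟨0, by simp⟩
  refine ⟨(Finset.range (m + 1)).inf' hne e, ?_, ?_⟩
  · rw [gt_iff_lt, Finset.lt_inf'_iff]
    intro ν _
    exact he ν
  · intro ε hε hεle ν _ hνb
    have hνm : ν ∈ Finset.range (m + 1) := by
      rw [Finset.mem_range]
      have h1 : b₀ ≤ ⌈b₀⌉₊ := Nat.le_ceil b₀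
      have h2 : (ν : ℝ) < (⌈b₀⌉₊ : ℝ) + 1 := by linarith
      have h3 : ν < ⌈b₀⌉₊ + 1 := by exact_mod_cast h2
      omega
    exact hmain ν ε hε (hεle.trans (Finset.inf'_le e hνm))

end Pool.Agent.Results.MP_4aaa2c_an.GlobalWellPosedness
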